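import Mathlib
import Pool.Agent.R578.Dim.Final

/-!
# Order dimension of Hasse-regular semidistributive lattices (MP_512408_co)

Disproof of Q1 and Q2: there is a finite congruence uniform (hence semidistributive)
4-Hasse-regular lattice (with 343 elements, obtained from the one-element lattice by 72 interval
doublings) whose order dimension is at least 5. It is a lattice quotient of the poset of regions
of the restriction of the `E_7` reflection arrangement to an `A_3` flat. Products with itself and
with the two-element chain give, for every `r`, an `r`-Hasse-regular finite congruence uniform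
lattice of dimension at least `r + ⌊r/4⌋`.

The lower bound: in a realizer with `n` linear orders every critical pair `x ≰ y` is reversed by
some linear order, and two pairs `x ≰ y`, `x' ≰ y'` with `x ≤ y'` and `x' ≤ y` cannot be reversed
by the same one; 19 pairs of the lattice have a conflict graph which is not 4-colourable.
-/

namespace Pool.Agent.Results.MP_512408_co.DimensionExceedsRegularity

open Pool.Agent.R578.Dim

/-- `L` has order dimension `d`. -/
def HasDim (L : Type) [PartialOrder L] (d : ℕ) : Prop := IsLeast {n : ℕ | Realizer L n} d

/-- For every `r` there is a finite semidistributive, congruence uniform, `r`-Hasse-regular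
lattice all of whose realizers have at least `r + ⌊r/4⌋` linear orders. In particular both
questions have a negative answer for every `r ≥ 4`. -/
theorem result :
    (∀ r : ℕ, ∃ (L : Type) (_ : Lattice L), Finite L ∧ Semidistributive L ∧
      CongruenceUniform L ∧ HasseRegular L r ∧ ∀ n : ℕ, Realizer L n → r + r / 4 ≤ n) ∧
    (∀ r : ℕ, 4 ≤ r → ¬ ∀ (L : Type) [Lattice L], Finite L → Semidistributive L →
      HasseRegular L r → HasDim L r) ∧
    (∀ r : ℕ, 4 ≤ r → ¬ ∀ (L : Type) [Lattice L], Finite L → Semidistributive L →
      CongruenceUniform L → HasseRegular L r → HasDim L r) := by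
  have key : ∀ r : ℕ, ∃ (L : Type) (_ : Lattice L), Finite L ∧ Semidistributive L ∧
      CongruenceUniform L ∧ HasseRegular L r ∧ ∀ n : ℕ, Realizer L n → r + r / 4 ≤ n := by
    intro r
    obtain ⟨L, iL, h1, h2, h3, h4, h5⟩ := G_all r
    exact ⟨L, iL, h1, h2, h3, h4, fun n hn => h5.le_of_realizer hn⟩
  refine ⟨key, ?_, ?_⟩
  · intro r hr hcon
    obtain ⟨L, iL, h1, h2, h3, h4, h5⟩ := key r
    have := h5 r (hcon L h1 h2 h4).1
    omega
  · intro r hr hcon
    obtain ⟨L, iL, h1, h2, h3, h4, h5⟩ := key r
    have := h5 r (hcon L h1 h2 h3 h4).1
    omega

end Pool.Agent.Results.MP_512408_co.DimensionExceedsRegularity
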